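import Mathlib
import Pool.Agent.MP_d0dfcd_ag.h33.Main

/-! Nagata's strict inequality with arbitrary multiplicities, in every characteristic. -/

namespace Pool.Agent.Results.MP_d0dfcd_ag.StrictNagata

open MvPolynomial

theorem result {K : Type*} [Field K] [IsAlgClosed K] (r : ℕ) (hr : 9 < r) (a b : Fin r → K)
    (hab : AlgebraicIndependent (⊥ : Subfield K) (Sum.elim a b))
    (d : ℕ) (m : Fin r → ℕ) (F : MvPolynomial (Fin 3) K) (h0 : F ≠ 0) (hd : F.IsHomogeneous d)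
    (hV : ∀ i, F ∈ Ideal.span {X 1 - C (a i) * X 0, X 2 - C (b i) * X 0} ^ m i)
    (hm : 0 < ∑ i, m i) : ((∑ i, m i : ℕ) : ℝ) < Real.sqrt r * d :=
  Pool.Agent.MP_d0dfcd_ag.H33.nagata_lt hr a b hab m h0 hd hV hm

end Pool.Agent.Results.MP_d0dfcd_ag.StrictNagata
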