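import Mathlib
import Pool.Agent.MP_d0dfcd_ag.h33.Main

/-! Nagata's conjecture in every characteristic: the Waldschmidt constant of generic points. -/

namespace Pool.Agent.Results.MP_d0dfcd_ag.Waldschmidt

open MvPolynomial Filter Topology

theorem result {K : Type*} [Field K] [IsAlgClosed K] (r : ℕ) (hr : 9 < r) (a b : Fin r → K)
    (hab : AlgebraicIndependent (⊥ : Subfield K) (Sum.elim a b)) :
    Tendsto (fun m : ℕ => ((sInf {d : ℕ | ∃ F : MvPolynomial (Fin 3) K, F ≠ 0 ∧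
        F.IsHomogeneous d ∧
        ∀ i, F ∈ Ideal.span {X 1 - C (a i) * X 0, X 2 - C (b i) * X 0} ^ m} : ℕ) : ℝ) / m)
      atTop (𝓝 (Real.sqrt r)) :=
  Pool.Agent.MP_d0dfcd_ag.H33.waldschmidt hr.le a b hab

end Pool.Agent.Results.MP_d0dfcd_ag.Waldschmidt
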